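import Mathlib
import Pool.Agent.J6H94.AP.Stm

set_option autoImplicit false

namespace Pool.Agent.J6H98.AP

open Pool.Agent.J6H94.AP

theorem pl : S_pl := by
  intro E _ _ hfr r e hr0 hr1 he hyp
  have : FiniteDimensional ℝ E := Module.finite_of_finrank_pos (by omega)
  have he0 : ‖e‖ ≠ 0 := by
    intro h
    rw [h] at he
    norm_num at he
  obtain ⟨f, hf1, hfe⟩ := exists_dual_vector ℝ e he0
  have hfe1 : f e = 1 := by
    rw [hfe, he]; simp
  have hker : ∃ x₀ : E, x₀ ≠ 0 ∧ f x₀ = 0 := by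
    have h1 : Module.finrank ℝ (LinearMap.range f.toLinearMap) +
        Module.finrank ℝ (LinearMap.ker f.toLinearMap) = 2 := by
      rw [LinearMap.finrank_range_add_finrank_ker, hfr]
    have h2 : Module.finrank ℝ (LinearMap.range f.toLinearMap) ≤ 1 := by
      calc _ ≤ Module.finrank ℝ ℝ := Submodule.finrank_le _
        _ = 1 := Module.finrank_self ℝ
    have h3 : 0 < Module.finrank ℝ (LinearMap.ker f.toLinearMap) := by omega
    have : Nontrivial (LinearMap.ker f.toLinearMap) := Module.finrank_pos_iff.mp h3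
    obtain ⟨⟨x, hx⟩, hx0⟩ := exists_ne (0 : LinearMap.ker f.toLinearMap)
    exact ⟨x, fun h => hx0 (by ext; exact h), hx⟩
  obtain ⟨x₀, hx0, hfx⟩ := hker
  have hfs : ∀ s : ℝ, f (x₀ + s • e) = s := by
    intro s
    simp [hfx, hfe1]
  refine ⟨x₀, ⟨hr0, hr1, ?_, ?_, ?_, ?_, ?_⟩, ?_⟩
  · intro s
    have hne : x₀ + s • e ≠ 0 := by
      intro h
      have h1 := hfs s
      rw [h, map_zero] at h1
      rw [← h1, zero_smul, add_zero] at h
      exact hx0 h
    exact norm_pos_iff.mpr hne
  · intro s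
    have h1 := f.le_opNorm (x₀ + s • e)
    rw [hfs, hf1, one_mul] at h1
    exact h1
  · intro s t
    have h1 := abs_norm_sub_norm_le (x₀ + s • e) (x₀ + t • e)
    have h2 : (x₀ + s • e) - (x₀ + t • e) = (s - t) • e := by
      rw [sub_smul]; abel
    rw [h2, norm_smul, he, mul_one] at h1
    exact h1
  · intro s
    have h1 := hyp (x₀ + s • e)
    show ‖x₀ + (s - r * ‖x₀ + s • e‖) • e‖ = r * ‖x₀ + (s - ‖x₀ + s • e‖ / r) • e‖
    generalize hH : ‖x₀ + s • e‖ = H at h1 ⊢
    have e1 : x₀ + (s - r * H) • e = x₀ + s • e - (r * H) • e := by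
      rw [sub_smul]; abel
    have e2 : r • (x₀ + s • e) - H • e = r • (x₀ + (s - H / r) • e) := by
      rw [smul_add, smul_add, smul_smul, smul_smul, add_sub_assoc, ← sub_smul]
      congr 2
      field_simp
    rw [e1, h1, e2, norm_smul, Real.norm_eq_abs, abs_of_pos hr0]
  · intro s
    have h1 := hyp (-(x₀ + s • e))
    show ‖x₀ + (s + r * ‖x₀ + s • e‖) • e‖ = r * ‖x₀ + (s + ‖x₀ + s • e‖ / r) • e‖
    rw [norm_neg] at h1
    generalize hH : ‖x₀ + s • e‖ = H at h1 ⊢
    have e1 : x₀ + (s + r * H) • e = -(-(x₀ + s • e) - (r * H) • e) := by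
      rw [add_smul]; abel
    have e2 : r • (-(x₀ + s • e)) - H • e = (-r) • (x₀ + (s + H / r) • e) := by
      have hr : r ≠ 0 := hr0.ne'
      have e3 : (r * (s + H / r)) = r * s + H := by field_simp
      rw [neg_smul, smul_neg, smul_add, smul_add, smul_smul, smul_smul, e3, add_smul]
      abel
    rw [e1, norm_neg, h1, e2, norm_smul, norm_neg, Real.norm_eq_abs, abs_of_pos hr0]
  · -- spanning
    have hli : LinearIndependent ℝ ![x₀, e] := by
      rw [LinearIndependent.pair_iff]
      intro a b hab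
      have h1 : f (a • x₀ + b • e) = 0 := by rw [hab, map_zero]
      have hb : b = 0 := by
        simpa [hfx, hfe1] using h1
      rw [hb, zero_smul, add_zero] at hab
      exact ⟨(smul_eq_zero.mp hab).resolve_right hx0, hb⟩
    have hsp : Submodule.span ℝ (Set.range ![x₀, e]) = ⊤ :=
      hli.span_eq_top_of_card_eq_finrank' (by simp [hfr])
    intro v
    have hv : v ∈ Submodule.span ℝ (Set.range ![x₀, e]) := by rw [hsp]; trivial
    rw [Matrix.range_cons, Matrix.range_cons, Matrix.range_empty, Set.union_empty,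
      Set.singleton_union, Submodule.mem_span_pair] at hv
    obtain ⟨a, b, hab⟩ := hv
    exact ⟨a, b, hab.symm⟩

end Pool.Agent.J6H98.AP
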